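import Pool.Agent.MP_66cee2_co.H64U.Up

/-
A unit preserving map with finite range: the cube, the tiling and the numbers.
-/

namespace Pool.Agent.MP_66cee2_co.H64U

open MeasureTheory Metric Set Filter Topology
open scoped RealInnerProductSpace Classical

theorem cube {d : ℕ} (hd : 1 ≤ d) (k : ℕ)
    (hk : (d : ℝ) * (2000 * d * (d + 1)) ≤ (499 / 1302 : ℝ) ^ d / 8 * k) :
    ∃ c : E d → Fin k, ∀ x y : E d, (∀ i, 0 ≤ x i ∧ x i < 2 * (d + 1)) →
      (∀ i, 0 ≤ y i ∧ y i < 2 * (d + 1)) → ‖x - y‖ = 1 → c x ≠ c y := by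
  have d1 : (1 : ℝ) ≤ d := by exact_mod_cast hd
  set M : ℕ := 2000 * d * (d + 1) with hM
  have hMr : (M : ℝ) = 2000 * d * (d + 1) := by rw [hM]; push_cast; ring
  have nb : ∀ (z : E d) (t : ℝ), 0 ≤ t → (∀ i, |z i| ≤ t) → ‖z‖ ≤ d * t := fun z t ht h => by
    refine abs_le_of_sq_le_sq' ?_ (by positivity) |>.2
    rw [EuclideanSpace.real_norm_sq_eq]
    have := Finset.sum_le_card_nsmul Finset.univ (fun i => z i ^ 2) (t ^ 2) fun i _ =>
      sq_le_sq' (abs_le.1 (h i)).1 (abs_le.1 (h i)).2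
    rw [nsmul_eq_mul, Finset.card_univ, Fintype.card_fin] at this
    nlinarith [mul_nonneg (mul_nonneg (by linarith : (0 : ℝ) ≤ d) (by linarith : (0 : ℝ) ≤ d - 1))
      (sq_nonneg t)]
  set pt : (Fin d → Fin M) → E d := fun a => WithLp.toLp 2 fun i => ((a i : ℕ) : ℝ) / (1000 * d)
    with hpt
  obtain ⟨m, hm⟩ := avg hd (R := d * (2 * (d + 1)) + 6) (by nlinarith) pt fun a => by
    have := nb (pt a) (2 * (d + 1)) (by positivity) fun i => by
      have h : ((a i : ℕ) : ℝ) ≤ M := by exact_mod_cast (a i).2.le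
      show |((a i : ℕ) : ℝ) / (1000 * d)| ≤ _
      rw [abs_of_nonneg (by positivity), div_le_iff₀ (by positivity)]
      linarith
    linarith
  set p : ℝ := (499 / 1302 : ℝ) ^ d / 8 with hp
  have p1 : p ≤ 1 := by
    have : (499 / 1302 : ℝ) ^ d ≤ 1 := pow_le_one₀ (by norm_num) (by norm_num)
    linarith
  obtain ⟨L, hL⟩ := greedy (fun (ω : Fin m → E d) a => Good ω (pt a)) p p1 hm k Finset.univ
  have hall : ∀ a, ∃ b, Good (L b) (pt a) := by
    have c1 : (1 - p) ^ k ≤ Real.exp (-(d * M)) := by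
      refine (pow_le_pow_left₀ (by linarith) (Real.one_sub_le_exp_neg p) k).trans ?_
      rw [← Real.exp_nat_mul]
      exact Real.exp_le_exp.2 (by rw [hMr]; linarith)
    have c2 : ((Finset.univ : Finset (Fin d → Fin M)).card : ℝ) < Real.exp (d * M) := by
      rw [Finset.card_univ, Fintype.card_fun, Fintype.card_fin, Fintype.card_fin, Real.exp_nat_mul]
      push_cast
      exact pow_lt_pow_left₀ (by linarith [Real.add_one_le_exp (M : ℝ)]) (by positivity) (by omega)
    have c3 : (1 - p) ^ k * ((Finset.univ : Finset (Fin d → Fin M)).card : ℝ) < 1 := by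
      refine (mul_le_mul_of_nonneg_right c1 (by positivity)).trans_lt ?_
      refine (mul_lt_mul_of_pos_left c2 (Real.exp_pos _)).trans_eq ?_
      rw [← Real.exp_add]; simp
    have c4 := hL.trans_lt c3
    intro a
    by_contra hc
    have : 0 < (Finset.univ.filter fun s => ∀ b, ¬ Good (L b) (pt s)).card :=
      Finset.card_pos.2 ⟨a, Finset.mem_filter.2 ⟨Finset.mem_univ _, not_exists.1 hc⟩⟩
    have : (1 : ℝ) ≤ (Finset.univ.filter fun s => ∀ b, ¬ Good (L b) (pt s)).card := by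
      exact_mod_cast this
    exact absurd c4 (not_lt.2 (by convert this))
  choose col hcol using hall
  have M0 : 0 < M := by positivity
  have near : ∀ x : E d, ∃ a, (∀ i, 0 ≤ x i ∧ x i < 2 * (d + 1)) → ‖x - pt a‖ ≤ 1 / 1000 := by
    intro x
    by_cases h : ∀ i, 0 ≤ x i ∧ x i < 2 * (d + 1)
    · refine ⟨fun i => ⟨⌊x i * (1000 * d)⌋₊, ?_⟩, fun _ => ?_⟩
      · rw [Nat.floor_lt (mul_nonneg (h i).1 (by positivity)), hMr]
        nlinarith [mul_lt_mul_of_pos_right (h i).2 (by positivity : (0 : ℝ) < 1000 * d)]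
      · refine (nb _ (1 / (1000 * d)) (by positivity) fun i => ?_).trans (le_of_eq (by field_simp))
        show |x i - (⌊x i * (1000 * d)⌋₊ : ℝ) / (1000 * d)| ≤ _
        have f1 := Nat.floor_le (mul_nonneg (h i).1 (by positivity : (0 : ℝ) ≤ 1000 * d))
        have f2 := Nat.lt_floor_add_one (x i * (1000 * d))
        have e : x i - (⌊x i * (1000 * d)⌋₊ : ℝ) / (1000 * d) =
            (x i * (1000 * d) - ⌊x i * (1000 * d)⌋₊) / (1000 * d) := by field_simp
        rw [e, abs_of_nonneg (div_nonneg (by linarith) (by positivity))]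
        exact div_le_div_of_nonneg_right (by linarith) (by positivity)
    · exact ⟨fun _ => ⟨0, M0⟩, fun h' => absurd h' h⟩
  choose nr hnr using near
  refine ⟨fun x => col (nr x), fun x y hx hy h e => ?_⟩
  have g1 := hcol (nr x)
  have g2 := hcol (nr y)
  simp only at e
  rw [← e] at g2
  have n1 := hnr x hx
  have n2 := hnr y hy
  have t1 : |‖x - y‖ - ‖pt (nr x) - pt (nr y)‖| ≤ 1 / 500 := by
    refine (abs_norm_sub_norm_le _ _).trans ?_
    have : x - y - (pt (nr x) - pt (nr y)) = (x - pt (nr x)) - (y - pt (nr y)) := by abel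
    rw [this]
    linarith [norm_sub_le (x - pt (nr x)) (y - pt (nr y))]
  rw [h, abs_le] at t1
  rcases piece g2 g1 with q | q <;> linarith [t1.1, t1.2]

theorem tile {d k : ℕ} (c : E d → Fin k) (hc : ∀ x y : E d, (∀ i, 0 ≤ x i ∧ x i < 2 * (d + 1)) →
      (∀ i, 0 ≤ y i ∧ y i < 2 * (d + 1)) → ‖x - y‖ = 1 → c x ≠ c y) :
    ∃ c' : E d → Fin (d + 1) × Fin k, ∀ x y : E d, ‖x - y‖ = 1 → c' x ≠ c' y := by
  set T : ℝ := 2 * (d + 1) with hT
  have T0 : 0 < T := by positivity
  set fl : Fin (d + 1) → E d → Fin d → ℤ := fun j x i => ⌊(x i - 2 * (j : ℕ)) / T⌋ with hfl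
  set red : Fin (d + 1) → E d → E d := fun j x =>
    WithLp.toLp 2 fun i => x i - 2 * (j : ℕ) - T * fl j x i with hred
  have r1 : ∀ j x i, 0 ≤ red j x i ∧ red j x i < T := fun j x i => by
    have f1 := Int.floor_le ((x i - 2 * (j : ℕ)) / T)
    have f2 := Int.lt_floor_add_one ((x i - 2 * (j : ℕ)) / T)
    rw [le_div_iff₀ T0] at f1
    rw [div_lt_iff₀ T0] at f2
    show 0 ≤ x i - 2 * (j : ℕ) - T * (⌊(x i - 2 * (j : ℕ)) / T⌋ : ℤ) ∧
      x i - 2 * (j : ℕ) - T * (⌊(x i - 2 * (j : ℕ)) / T⌋ : ℤ) < T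
    constructor <;> linarith
  have ex : ∀ x : E d, ∃ j, ∀ i, 2 ≤ red j x i := fun x => by
    by_contra h
    push Not at h
    choose g hg using h
    have inj : Function.Injective g := fun j j' e => by
      have a := hg j
      have b := hg j'
      rw [← e] at b
      have a0 := (r1 j x (g j)).1
      have b0 := (r1 j' x (g j)).1
      change x (g j) - 2 * (j : ℕ) - T * fl j x (g j) < 2 at a
      change x (g j) - 2 * (j' : ℕ) - T * fl j' x (g j) < 2 at b
      change 0 ≤ x (g j) - 2 * (j : ℕ) - T * fl j x (g j) at a0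
      change 0 ≤ x (g j) - 2 * (j' : ℕ) - T * fl j' x (g j) at b0
      generalize fl j x (g j) = A at a a0
      generalize fl j' x (g j) = B at b b0
      have u1 : ((j : ℕ) : ℤ) + (d + 1) * A < (j' : ℕ) + (d + 1) * B + 1 := by
        have : ((j : ℕ) : ℝ) + (d + 1) * A < (j' : ℕ) + (d + 1) * B + 1 := by linarith
        exact_mod_cast this
      have u2 : ((j' : ℕ) : ℤ) + (d + 1) * B < (j : ℕ) + (d + 1) * A + 1 := by
        have : ((j' : ℕ) : ℝ) + (d + 1) * B < (j : ℕ) + (d + 1) * A + 1 := by linarith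
        exact_mod_cast this
      have j1 : ((j : ℕ) : ℤ) < d + 1 := by exact_mod_cast j.2
      have j2 : ((j' : ℕ) : ℤ) < d + 1 := by exact_mod_cast j'.2
      have j3 : (0 : ℤ) ≤ (j : ℕ) := by positivity
      have j4 : (0 : ℤ) ≤ (j' : ℕ) := by positivity
      have AB : A = B := by
        rcases lt_trichotomy A B with q | q | q
        · nlinarith [mul_le_mul_of_nonneg_left (Int.add_one_le_of_lt q) (by linarith : (0 : ℤ) ≤ d + 1)]
        · exact q
        · nlinarith [mul_le_mul_of_nonneg_left (Int.add_one_le_of_lt q) (by linarith : (0 : ℤ) ≤ d + 1)]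
      subst AB
      exact Fin.ext (by omega)
    have := Fintype.card_le_of_injective g inj
    simp at this
  choose J hJ using ex
  refine ⟨fun x => (J x, c (red (J x) x)), fun x y h e => ?_⟩
  obtain ⟨e1, e2⟩ := Prod.mk.inj e
  have hy := hJ y
  rw [← e1] at e2 hy
  refine hc _ _ (r1 _ x) (r1 _ y) ?_ e2
  rw [← h]
  congr 1
  ext i
  have n1 : |x i - y i| ≤ 1 := by
    have := PiLp.norm_apply_le (x - y) i
    rwa [h, Real.norm_eq_abs] at this
  have a := hJ x i
  have b := hy i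
  have a1 := (r1 (J x) x i).2
  have b1 := (r1 (J x) y i).2
  change 2 ≤ x i - 2 * (J x : ℕ) - T * fl (J x) x i at a
  change 2 ≤ y i - 2 * (J x : ℕ) - T * fl (J x) y i at b
  change x i - 2 * (J x : ℕ) - T * fl (J x) x i < T at a1
  change y i - 2 * (J x : ℕ) - T * fl (J x) y i < T at b1
  change x i - 2 * (J x : ℕ) - T * fl (J x) x i - (y i - 2 * (J x : ℕ) - T * fl (J x) y i) = x i - y i
  generalize fl (J x) x i = A at a a1 ⊢
  generalize fl (J x) y i = B at b b1 ⊢
  rw [abs_le] at n1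
  have AB : A = B := by
    rcases lt_trichotomy A B with q | q | q
    · have : (A : ℝ) + 1 ≤ B := by exact_mod_cast q
      nlinarith [mul_le_mul_of_nonneg_left this T0.le]
    · exact q
    · have : (B : ℝ) + 1 ≤ A := by exact_mod_cast q
      nlinarith [mul_le_mul_of_nonneg_left this T0.le]
  rw [AB]; ring

theorem map_of {d n : ℕ} (hd : 1 ≤ d) (c : E d → Fin n) (hc : ∀ x y : E d, ‖x - y‖ = 1 → c x ≠ c y) :
    ∃ f : E d → E n, (∀ x y, ‖x - y‖ = 1 → ‖f x - f y‖ = 1) ∧
      ¬ ∀ x y, ‖f x - f y‖ = ‖x - y‖ := by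
  have h2 : (√2)⁻¹ ^ 2 = (1 / 2 : ℝ) := by rw [inv_pow, Real.sq_sqrt (by norm_num)]; norm_num
  have key : ∀ a b : Fin n, a ≠ b →
      ‖(EuclideanSpace.single a (√2)⁻¹ : E n) - EuclideanSpace.single b (√2)⁻¹‖ = 1 := by
    intro a b hab
    have : ‖(EuclideanSpace.single a (√2)⁻¹ : E n) - EuclideanSpace.single b (√2)⁻¹‖ ^ 2 = 1 := by
      rw [norm_sub_sq_real, EuclideanSpace.inner_single_left]
      simp only [PiLp.norm_single, Real.norm_eq_abs, sq_abs, h2]
      simp [hab]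
      norm_num
    exact (pow_eq_one_iff_of_nonneg (norm_nonneg _) (by norm_num)).1 this
  refine ⟨fun x => EuclideanSpace.single (c x) (√2)⁻¹, fun x y h => key _ _ (hc x y h), fun h => ?_⟩
  have := h (EuclideanSpace.single ⟨0, hd⟩ 2) 0
  simp only [sub_zero, PiLp.norm_single, Real.norm_eq_abs] at this
  by_cases e : c (EuclideanSpace.single ⟨0, hd⟩ 2) = c 0
  · rw [e] at this; norm_num at this
  · rw [key _ _ e] at this; norm_num at this

theorem upper : ∃ d₀ : ℕ, ∀ d n : ℕ, d₀ ≤ d → (261 / 100 : ℝ) ^ d ≤ n →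
    ∃ f : E d → E n, (∀ x y, ‖x - y‖ = 1 → ‖f x - f y‖ = 1) ∧
      ¬ ∀ x y, ‖f x - f y‖ = ‖x - y‖ := by
  have lim := tendsto_pow_const_div_const_pow_of_one_lt 4
    (r := (261 / 100 * (499 / 1302) : ℝ)) (by norm_num)
  obtain ⟨d₀, h⟩ := eventually_atTop.1 (lim.eventually (gt_mem_nhds (by norm_num : (0 : ℝ) < 1 / 70000)))
  refine ⟨d₀ + 1, fun d n hd hn => ?_⟩
  have h1 := h d (by omega)
  have d1 : (1 : ℝ) ≤ d := by exact_mod_cast (by omega : 1 ≤ d)
  set q : ℝ := (499 / 1302 : ℝ) ^ d with hq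
  have q0 : 0 < q := by positivity
  have q1 : q ≤ 1 := pow_le_one₀ (by norm_num) (by norm_num)
  rw [mul_pow, div_lt_iff₀ (by positivity), ← hq] at h1
  set k : ℕ := ⌈(d : ℝ) * (2000 * d * (d + 1)) * 8 / q⌉₊ with hk
  have k1 : (d : ℝ) * (2000 * d * (d + 1)) * 8 ≤ k * q := (div_le_iff₀ q0).1 (Nat.le_ceil _)
  have k2 : (k : ℝ) * q ≤ d * (2000 * d * (d + 1)) * 8 + 1 := by
    have : (k : ℝ) - 1 < (d : ℝ) * (2000 * d * (d + 1)) * 8 / q := by
      linarith [Nat.ceil_lt_add_one (by positivity : 0 ≤ (d : ℝ) * (2000 * d * (d + 1)) * 8 / q)]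
    rw [lt_div_iff₀ q0] at this
    linarith
  obtain ⟨c, hc⟩ := cube (by omega : 1 ≤ d) k (by linarith)
  obtain ⟨c', hc'⟩ := tile c hc
  have le : (d + 1) * k ≤ n := by
    have a1 : ((d : ℝ) + 1) * k * q ≤ n * q := by
      have b1 : (261 / 100 : ℝ) ^ d * q ≤ n * q := mul_le_mul_of_nonneg_right hn q0.le
      have b2 : ((d : ℝ) + 1) * (k * q) ≤ (2 * d) * (d * (2000 * d * (2 * d)) * 8 + d ^ 3) := by
        refine mul_le_mul (by linarith) (k2.trans ?_) (by positivity) (by positivity)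
        have : (1 : ℝ) ≤ d ^ 3 := one_le_pow₀ d1
        have : (d : ℝ) * (2000 * d * (d + 1)) * 8 ≤ d * (2000 * d * (2 * d)) * 8 := by
          gcongr; linarith
        linarith
      have b3 : (0 : ℝ) ≤ d ^ 4 := by positivity
      nlinarith
    exact_mod_cast le_of_mul_le_mul_right a1 q0
  refine map_of (by omega) (fun x => Fin.castLE le (finProdFinEquiv (c' x))) fun x y hxy e => ?_
  exact hc' x y hxy (finProdFinEquiv.injective (Fin.castLE_injective le e))

end Pool.Agent.MP_66cee2_co.H64U
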