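import Mathlib

/-
A unit preserving map with finite range.
-/

namespace Pool.Agent.MP_66cee2_co.H64U

open MeasureTheory Metric Set ProbabilityTheory Filter
open scoped RealInnerProductSpace Classical

abbrev E (d : ℕ) : Type := EuclideanSpace ℝ (Fin d)

/-- the point belongs to the piece of one of the centres. -/
def Good {d m : ℕ} (ω : Fin m → E d) (s : E d) : Prop :=
  ∃ i, ‖s - ω i‖ < 499 / 1000 ∧
    ∀ j, j ≠ i → 651 / 500 < ‖ω j - (ω i + (3 / 2 : ℝ) • (s - ω i))‖

theorem key {d : ℕ} (u w : E d) (hu : ‖u‖ < 499 / 1000) (h : 651 / 500 < ‖w - (3 / 2 : ℝ) • u‖) :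
    2 * ⟪w, u⟫ < ‖w‖ ^ 2 - 501 / 500 * ‖w‖ := by
  have e : ‖w - (3 / 2 : ℝ) • u‖ ^ 2 = ‖w‖ ^ 2 - 3 * ⟪w, u⟫ + 9 / 4 * ‖u‖ ^ 2 := by
    rw [norm_sub_sq_real, real_inner_smul_right, norm_smul, mul_pow]
    norm_num; ring
  have h1 : (651 / 500 : ℝ) ^ 2 < ‖w - (3 / 2 : ℝ) • u‖ ^ 2 :=
    pow_lt_pow_left₀ h (by norm_num) (by norm_num)
  have h2 : ‖u‖ ^ 2 < (499 / 1000) ^ 2 := pow_lt_pow_left₀ hu (norm_nonneg _) (by norm_num)
  nlinarith [sq_nonneg (‖w‖ - 3 / 2 * (501 / 500))]

theorem piece {d m : ℕ} {ω : Fin m → E d} {s t : E d} (hs : Good ω s) (ht : Good ω t) :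
    ‖t - s‖ < 499 / 500 ∨ 501 / 500 < ‖t - s‖ := by
  obtain ⟨i, a1, a2⟩ := hs
  obtain ⟨j, b1, b2⟩ := ht
  by_cases h : j = i
  · subst h
    left
    have := norm_sub_le (t - ω j) (s - ω j)
    rw [sub_sub_sub_cancel_right] at this
    linarith
  · right
    have k1 := key (s - ω i) (ω j - ω i) a1 (by
      have := a2 j h; rwa [← sub_sub] at this)
    have k2 := key (t - ω j) (ω i - ω j) b1 (by
      have := b2 i (Ne.symm h); rwa [← sub_sub] at this)
    rw [norm_sub_rev (ω i), ← neg_sub (ω j) (ω i), inner_neg_left] at k2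
    have e : ⟪ω j - ω i, t - s⟫ = ‖ω j - ω i‖ ^ 2 + ⟪ω j - ω i, t - ω j⟫ - ⟪ω j - ω i, s - ω i⟫ := by
      rw [← real_inner_self_eq_norm_sq, ← inner_add_right, ← inner_sub_right]
      congr 1; abel
    have c := real_inner_le_norm (ω j - ω i) (t - s)
    by_contra hc
    rw [not_lt] at hc
    nlinarith [mul_le_mul_of_nonneg_left hc (norm_nonneg (ω j - ω i))]

theorem greedy {ι Ω : Type} (G : Ω → ι → Prop) (p : ℝ) (hp : p ≤ 1)
    (h : ∀ S : Finset ι, ∃ ω, p * S.card ≤ (S.filter (G ω)).card) (k : ℕ) :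
    ∀ S : Finset ι, ∃ L : Fin k → Ω,
      ((S.filter fun s => ∀ a, ¬ G (L a) s).card : ℝ) ≤ (1 - p) ^ k * S.card := by
  induction k with
  | zero => exact fun S => ⟨Fin.elim0, by simp⟩
  | succ k ih =>
    intro S
    obtain ⟨ω, hω⟩ := h S
    obtain ⟨L, hL⟩ := ih (S.filter fun s => ¬ G ω s)
    refine ⟨Fin.cons ω L, ?_⟩
    have e : (S.filter fun s => ∀ a : Fin (k + 1), ¬ G ((Fin.cons ω L : Fin (k + 1) → Ω) a) s) =
        (S.filter fun s => ¬ G ω s).filter fun s => ∀ a, ¬ G (L a) s := by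
      ext s; simp [Fin.forall_fin_succ, and_assoc]
    have c : ((S.filter (G ω)).card : ℝ) + (S.filter fun s => ¬ G ω s).card = S.card := by
      exact_mod_cast Finset.card_filter_add_card_filter_not (s := S) (G ω)
    rw [e, pow_succ, mul_assoc]
    refine hL.trans (mul_le_mul_of_nonneg_left (by linarith) (pow_nonneg (by linarith) _))

/-- the dangerous pairs. -/
def Dg {d : ℕ} (s : E d) : Set (E d × E d) :=
  {z | z.1 ∈ ball s (499 / 1000) ∧ z.2 ∈ closedBall (z.1 + (3 / 2 : ℝ) • (s - z.1)) (651 / 500)}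

theorem Dg_meas {d : ℕ} (s : E d) : MeasurableSet (Dg s) := by
  refine (measurable_fst measurableSet_ball).inter ?_
  exact (isClosed_le (f := fun z : E d × E d => dist z.2 (z.1 + (3 / 2 : ℝ) • (s - z.1)))
    (by fun_prop) continuous_const).measurableSet

/-- the counting function. -/
noncomputable def N {d m : ℕ} (s : E d) (ω : Fin m → E d) : ℝ :=
  ∑ i, ((ball s (499 / 1000)).indicator (1 : E d → ℝ) (ω i) -
    ∑ j ∈ Finset.univ.erase i, (Dg s).indicator (1 : E d × E d → ℝ) (ω i, ω j))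

theorem N_le {d m : ℕ} (s : E d) (ω : Fin m → E d) : N s ω ≤ if Good ω s then 1 else 0 := by
  have nn : ∀ i j, 0 ≤ (Dg s).indicator (1 : E d × E d → ℝ) (ω i, ω j) := fun i j =>
    indicator_nonneg (fun _ _ => zero_le_one) _
  have z : ∀ i, (ω i ∈ ball s (499 / 1000) → ∃ j, j ≠ i ∧ (ω i, ω j) ∈ Dg s) →
      (ball s (499 / 1000)).indicator (1 : E d → ℝ) (ω i) -
        ∑ j ∈ Finset.univ.erase i, (Dg s).indicator (1 : E d × E d → ℝ) (ω i, ω j) ≤ 0 := by
    intro i hi
    by_cases h : ω i ∈ ball s (499 / 1000)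
    · obtain ⟨j, hj, hj'⟩ := hi h
      have := Finset.single_le_sum (f := fun j => (Dg s).indicator (1 : E d × E d → ℝ) (ω i, ω j))
        (s := Finset.univ.erase i) (fun j _ => nn i j) (Finset.mem_erase.2 ⟨hj, Finset.mem_univ j⟩)
      rw [indicator_of_mem hj'] at this
      rw [indicator_of_mem h]
      simp only [Pi.one_apply] at this ⊢
      linarith
    · rw [indicator_of_notMem h]
      have := Finset.sum_nonneg (s := Finset.univ.erase i) fun j _ => nn i j
      linarith
  unfold N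
  split_ifs with h
  · obtain ⟨i, a1, -⟩ := h
    rw [← Finset.add_sum_erase _ _ (Finset.mem_univ i)]
    have b1 : (ball s (499 / 1000)).indicator (1 : E d → ℝ) (ω i) ≤ 1 :=
      indicator_le_self' (fun _ _ => zero_le_one) _
    have b2 := Finset.sum_nonneg (s := Finset.univ.erase i) fun j _ => nn i j
    have b3 := Finset.sum_nonpos (s := Finset.univ.erase i) fun j hj => z j fun hb =>
      ⟨i, (Finset.mem_erase.1 hj).1.symm, hb, by
        rw [mem_ball, dist_comm, dist_eq_norm] at hb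
        rw [mem_closedBall, dist_eq_norm]
        have e : ω i - (ω j + (3 / 2 : ℝ) • (s - ω j)) = -(s - ω i) - (1 / 2 : ℝ) • (s - ω j) := by
          module
        have := norm_sub_le (-(s - ω i)) ((1 / 2 : ℝ) • (s - ω j))
        rw [norm_neg, norm_smul] at this
        simp only [e]
        norm_num at this ⊢
        linarith⟩
    linarith
  · refine Finset.sum_nonpos fun i _ => z i fun hb => ?_
    by_contra hc
    refine h ⟨i, by rwa [mem_ball, dist_comm, dist_eq_norm] at hb, fun j hj => ?_⟩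
    by_contra h2
    exact hc ⟨j, hj, hb, by rw [mem_closedBall, dist_eq_norm]; exact not_lt.1 h2⟩

theorem int_N {d m : ℕ} (μ : Measure (E d)) [IsProbabilityMeasure μ] (s : E d) (v : ℝ) (hv0 : 0 ≤ v)
    (hv : ∀ c : E d, μ.real (closedBall c (651 / 500)) ≤ v) :
    Integrable (N (m := m) s) (Measure.pi fun _ => μ) ∧
      m * (μ.real (ball s (499 / 1000)) * (1 - m * v)) ≤ ∫ ω, N (m := m) s ω ∂Measure.pi fun _ => μ := by
  have p1 : ∀ i : Fin m, MeasurePreserving (fun ω : Fin m → E d => ω i) (Measure.pi fun _ => μ) μ :=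
    fun i => measurePreserving_eval _ i
  have p2 : ∀ i j : Fin m, j ≠ i → MeasurePreserving (fun ω : Fin m → E d => (ω i, ω j))
      (Measure.pi fun _ => μ) (μ.prod μ) := by
    intro i j h
    have hI := (iIndepFun_pi (μ := fun _ : Fin m => μ) (X := fun _ => id)
      fun _ => aemeasurable_id).indepFun h.symm
    refine ⟨by fun_prop, ?_⟩
    have := (indepFun_iff_map_prod_eq_prod_map_map (p1 i).aemeasurable (p1 j).aemeasurable).1 hI
    rw [(p1 i).map_eq, (p1 j).map_eq] at this
    exact this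
  have i1 : Integrable ((ball s (499 / 1000)).indicator (1 : E d → ℝ)) μ :=
    (integrable_const 1).indicator measurableSet_ball
  have i2 : Integrable ((Dg s).indicator (1 : E d × E d → ℝ)) (μ.prod μ) :=
    (integrable_const 1).indicator (Dg_meas s)
  have j1 : ∀ i : Fin m, Integrable (fun ω : Fin m → E d =>
      (ball s (499 / 1000)).indicator (1 : E d → ℝ) (ω i)) (Measure.pi fun _ => μ) :=
    fun i => (p1 i).integrable_comp_of_integrable i1
  have j2 : ∀ i : Fin m, ∀ j ∈ Finset.univ.erase i, Integrable (fun ω : Fin m → E d =>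
      (Dg s).indicator (1 : E d × E d → ℝ) (ω i, ω j)) (Measure.pi fun _ => μ) :=
    fun i j hj => (p2 i j (Finset.mem_erase.1 hj).1).integrable_comp_of_integrable i2
  have e1 : ∀ i : Fin m, ∫ ω : Fin m → E d, (ball s (499 / 1000)).indicator (1 : E d → ℝ) (ω i)
      ∂(Measure.pi fun _ => μ) = μ.real (ball s (499 / 1000)) := fun i => by
    rw [← integral_indicator_one measurableSet_ball, ← (p1 i).map_eq,
      integral_map (p1 i).aemeasurable (by rw [(p1 i).map_eq]; exact i1.1), (p1 i).map_eq]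
  have d2 : ∫ z, (Dg s).indicator (1 : E d × E d → ℝ) z ∂(μ.prod μ) ≤
      μ.real (ball s (499 / 1000)) * v := by
    rw [integral_prod _ i2, ← integral_indicator_one measurableSet_ball, ← integral_mul_const]
    refine integral_mono i2.integral_prod_left (i1.mul_const v) fun a => ?_
    by_cases h : a ∈ ball s (499 / 1000)
    · have : (fun y => (Dg s).indicator (1 : E d × E d → ℝ) (a, y)) =
          (closedBall (a + (3 / 2 : ℝ) • (s - a)) (651 / 500)).indicator 1 := by
        funext y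
        by_cases hy : y ∈ closedBall (a + (3 / 2 : ℝ) • (s - a)) (651 / 500)
        · rw [indicator_of_mem hy, indicator_of_mem (show (a, y) ∈ Dg s from ⟨h, hy⟩)]; rfl
        · rw [indicator_of_notMem hy, indicator_of_notMem fun h' : (a, y) ∈ Dg s => hy h'.2]
      simp only [this, indicator_of_mem h, Pi.one_apply, one_mul]
      rw [integral_indicator_one measurableSet_closedBall]
      exact hv _
    · have : (fun y => (Dg s).indicator (1 : E d × E d → ℝ) (a, y)) = fun _ => 0 :=
        funext fun y => indicator_of_notMem (fun h' : (a, y) ∈ Dg s => h h'.1) _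
      simp [this, indicator_of_notMem h]
  have e2 : ∀ i : Fin m, ∀ j ∈ Finset.univ.erase i, ∫ ω : Fin m → E d,
      (Dg s).indicator (1 : E d × E d → ℝ) (ω i, ω j) ∂(Measure.pi fun _ => μ) ≤
      μ.real (ball s (499 / 1000)) * v := fun i j hj => by
    have q := p2 i j (Finset.mem_erase.1 hj).1
    refine le_trans (le_of_eq ?_) d2
    rw [← q.map_eq, integral_map q.aemeasurable (by rw [q.map_eq]; exact i2.1)]
  have j3 : ∀ i : Fin m, Integrable (fun ω : Fin m → E d => ∑ j ∈ Finset.univ.erase i,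
      (Dg s).indicator (1 : E d × E d → ℝ) (ω i, ω j)) (Measure.pi fun _ => μ) :=
    fun i => integrable_finset_sum _ (j2 i)
  have j4 : ∀ i : Fin m, Integrable (fun ω : Fin m → E d =>
      (ball s (499 / 1000)).indicator (1 : E d → ℝ) (ω i) - ∑ j ∈ Finset.univ.erase i,
      (Dg s).indicator (1 : E d × E d → ℝ) (ω i, ω j)) (Measure.pi fun _ => μ) :=
    fun i => (j1 i).sub (j3 i)
  refine ⟨integrable_finset_sum _ fun i _ => j4 i, ?_⟩
  unfold N
  rw [integral_finset_sum _ fun i _ => j4 i]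
  have : (m : ℝ) * (μ.real (ball s (499 / 1000)) * (1 - m * v)) =
      ∑ _i : Fin m, μ.real (ball s (499 / 1000)) * (1 - m * v) := by simp
  rw [this]
  refine Finset.sum_le_sum fun i _ => ?_
  rw [integral_sub (j1 i) (j3 i), e1, integral_finset_sum _ (j2 i)]
  have b := Finset.sum_le_card_nsmul _ _ _ (e2 i)
  have c : ((Finset.univ.erase i).card : ℝ) ≤ m := by
    exact_mod_cast (Finset.card_erase_le).trans (by simp)
  rw [nsmul_eq_mul] at b
  have n0 : 0 ≤ μ.real (ball s (499 / 1000)) * v := mul_nonneg measureReal_nonneg hv0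
  nlinarith [mul_le_mul_of_nonneg_right c n0]

theorem avg {d : ℕ} (hd : 1 ≤ d) {R : ℝ} (hR : 6 ≤ R) {ι : Type} (pt : ι → E d)
    (hpt : ∀ a, ‖pt a‖ + 1 ≤ R) : ∃ m : ℕ, ∀ S : Finset ι, ∃ ω : Fin m → E d,
      (499 / 1302 : ℝ) ^ d / 8 * S.card ≤ (S.filter fun a => Good ω (pt a)).card := by
  have R0 : 0 < R := by linarith
  have u0 : volume (ball (0 : E d) R) ≠ 0 := (measure_ball_pos _ _ R0).ne'
  have u1 : volume (ball (0 : E d) R) ≠ ⊤ := measure_ball_lt_top.ne
  set μ : Measure (E d) := volume[|ball 0 R] with hμ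
  haveI : IsProbabilityMeasure μ := cond_isProbabilityMeasure_of_finite u0 u1
  set κ := volume.real (ball (0 : E d) 1) with hκ
  have κ0 : 0 < κ := ENNReal.toReal_pos (measure_ball_pos _ _ one_pos).ne' measure_ball_lt_top.ne
  have vb : ∀ (c : E d) (r : ℝ), 0 < r → volume.real (ball c r) = r ^ d * κ := fun c r hr => by
    rw [measureReal_def, Measure.addHaar_ball_of_pos _ _ hr, ENNReal.toReal_mul,
      ENNReal.toReal_ofReal (by positivity), finrank_euclideanSpace_fin]; rfl
  have vc : ∀ (c : E d) (r : ℝ), 0 < r → volume.real (closedBall c r) = r ^ d * κ :=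
    fun c r hr => by
    rw [measureReal_def, Measure.addHaar_closedBall _ _ hr.le, ENNReal.toReal_mul,
      ENNReal.toReal_ofReal (by positivity), finrank_euclideanSpace_fin]; rfl
  have mu : ∀ T : Set (E d), μ.real T = (R ^ d * κ)⁻¹ * volume.real (ball 0 R ∩ T) := fun T => by
    rw [measureReal_def, hμ, cond_apply measurableSet_ball, ENNReal.toReal_mul, ENNReal.toReal_inv,
      ← vb 0 R R0]; rfl
  set v : ℝ := (651 / 500 / R) ^ d with hv
  have v0 : 0 < v := by positivity
  have v4 : v ≤ 1 / 4 := by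
    have a : 651 / 500 / R ≤ 1 / 4 := by rw [div_le_iff₀ R0]; linarith
    exact (pow_le_of_le_one (by positivity) (by linarith) (by omega)).trans a
  have hv' : ∀ c : E d, μ.real (closedBall c (651 / 500)) ≤ v := fun c => by
    rw [mu]
    refine (mul_le_mul_of_nonneg_left (measureReal_mono inter_subset_right
      measure_closedBall_lt_top.ne) (by positivity)).trans (le_of_eq ?_)
    rw [vc _ _ (by norm_num), hv, div_pow _ R]; field_simp
  have hq : ∀ a, μ.real (ball (pt a) (499 / 1000)) = (499 / 1302) ^ d * v := fun a => by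
    rw [mu, inter_eq_self_of_subset_right (ball_subset_ball' (by
      rw [dist_zero_right]; linarith [hpt a])), vb _ _ (by norm_num), hv, div_pow _ R,
      show (499 / 1000 : ℝ) = 499 / 1302 * (651 / 500) by norm_num, mul_pow]
    field_simp
  refine ⟨⌊1 / (2 * v)⌋₊, fun S => ?_⟩
  set m := ⌊1 / (2 * v)⌋₊ with hm
  have m1 : (m : ℝ) * v ≤ 1 / 2 := by
    have : (m : ℝ) ≤ 1 / (2 * v) := Nat.floor_le (by positivity)
    rw [le_div_iff₀ (by positivity)] at this; linarith
  have m2 : 1 / 4 ≤ (m : ℝ) * v := by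
    have : 1 / (2 * v) < (m : ℝ) + 1 := Nat.lt_floor_add_one _
    rw [div_lt_iff₀ (by positivity)] at this; linarith
  have I := fun a => int_N (m := m) μ (pt a) v v0.le hv'
  obtain ⟨ω, hω⟩ := exists_integral_le (μ := Measure.pi fun _ : Fin m => μ)
    (integrable_finset_sum S fun a _ => (I a).1)
  refine ⟨ω, ?_⟩
  rw [integral_finset_sum _ fun a _ => (I a).1] at hω
  have a1 : (499 / 1302 : ℝ) ^ d / 8 * S.card ≤
      ∑ a ∈ S, ∫ ω, N (m := m) (pt a) ω ∂Measure.pi fun _ => μ := by
    have := Finset.card_nsmul_le_sum S (fun a => ∫ ω, N (m := m) (pt a) ω ∂Measure.pi fun _ => μ)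
      ((499 / 1302 : ℝ) ^ d / 8) fun a _ => by
        refine le_trans ?_ (I a).2
        rw [hq]
        have p0 : (0 : ℝ) ≤ (499 / 1302) ^ d := by positivity
        have : 1 / 8 ≤ (m * v) * (1 - m * v) := by nlinarith
        nlinarith [mul_le_mul_of_nonneg_left this p0]
    rw [nsmul_eq_mul] at this; linarith
  refine a1.trans (hω.trans ?_)
  rw [Finset.card_filter]
  push_cast
  exact Finset.sum_le_sum fun a _ => N_le _ _

end Pool.Agent.MP_66cee2_co.H64U
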